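import Pool.Agent.H62.SPX.T4

/-!
# SPX: part SEL (selection of translates)
-/

set_option autoImplicit false

open MeasureTheory Filter Topology Set
open scoped InnerProductSpace ENNReal

namespace Pool.Agent.H62.SPX.SEL

open Pool.Agent.Helper64.SPX Pool.Agent.H62.SPX.T4

theorem main (hAMAL : S_AMAL) (hCONT : S_CONT) (hPL : S_PL) : S_SEL := by
  intro ι _ Λ r S H v hr hSep hT hB hlim
  classical
  have qnn : ∀ R, 0 ≤ q ι R := fun R => ENNReal.toReal_nonneg
  set GS : ℕ → ℕ → E ι → ℝ := fun k j z => ∑ a ∈ S k, ‖ft (H j) (z - a)‖ ^ 2 with hGS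
  have hSsub : ∀ k, (S k : Set (E ι)) ⊆ Λ := fun k => by
    have := hT k
    unfold Pool.Agent.Helper64.SPX.Trunc at this
    rw [this]
    exact inter_subset_left
  have hSsep : ∀ k, Sep r (S k : Set (E ι)) := fun k a ha b hb hab =>
    hSep a (hSsub k ha) b (hSsub k hb) hab
  have cGS : ∀ k j, Continuous (GS k j) := by
    intro k j
    have h1 := (hCONT ι (H j) (hB j) r hr (S k : Set (E ι)) (hSsep k)).2
    have h2 : G (S k : Set (E ι)) (H j) = GS k j := by
      funext z
      unfold G
      rw [hGS]
      exact Finset.tsum_subtype' (S k) (fun a => ‖ft (H j) (z - a)‖ ^ 2)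
    rwa [h2] at h1
  have cG : ∀ j, Continuous (G Λ (H j)) := fun j => (hCONT ι (H j) (hB j) r hr Λ hSep).2
  -- tails
  have tail : ∀ (j : ℕ) (ε : ℝ), 0 < ε → ∃ ρ : ℝ, 0 ≤ ρ ∧ ∀ (k : ℕ) (z : E ι), ‖z‖ ≤ k - ρ →
      GS k j z ≤ G Λ (H j) z ∧ G Λ (H j) z ≤ GS k j z + ε := by
    intro j ε hε
    obtain ⟨ρ0, hρ0⟩ := (hAMAL ι (H j) (hB j) r hr).2 ε hε
    refine ⟨max ρ0 0, le_max_right _ _, fun k z hz => ?_⟩
    have hsum := (hCONT ι (H j) (hB j) r hr Λ hSep).1 z
    have hTk : ∀ a, a ∈ S k ↔ a ∈ Λ ∧ ‖a‖ ≤ k := by
      intro a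
      have h1 := hT k
      unfold Pool.Agent.Helper64.SPX.Trunc at h1
      rw [← Finset.mem_coe, h1]
      simp
    constructor
    · have h1 : GS k j z = ∑ a ∈ (S k).subtype (· ∈ Λ), ‖ft (H j) (z - a)‖ ^ 2 := by
        rw [hGS]
        exact (Finset.sum_subtype_of_mem (fun a => ‖ft (H j) (z - a)‖ ^ 2)
          (fun a ha => hSsub k ha)).symm
      rw [h1]
      exact hsum.sum_le_tsum _ fun a _ => sq_nonneg _
    · unfold G
      refine hsum.tsum_le_of_sum_le fun T => ?_
      set T' : Finset (E ι) := T.map (Function.Embedding.subtype _) with hT'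
      have h2 : ∑ a ∈ T, ‖ft (H j) (z - a)‖ ^ 2 = ∑ a ∈ T', ‖ft (H j) (z - a)‖ ^ 2 := by
        rw [hT', Finset.sum_map]
        rfl
      have hT'Λ : ∀ a ∈ T', a ∈ Λ := by
        intro a ha
        rw [hT', Finset.mem_map] at ha
        obtain ⟨b, -, rfl⟩ := ha
        exact b.2
      rw [h2, ← Finset.sum_filter_add_sum_filter_not T' (fun a => ‖a‖ ≤ (k : ℝ))]
      refine add_le_add ?_ ?_
      · refine Finset.sum_le_sum_of_subset_of_nonneg ?_ fun a _ _ => sq_nonneg _
        intro a ha
        rw [Finset.mem_filter] at ha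
        exact (hTk a).mpr ⟨hT'Λ a ha.1, ha.2⟩
      · refine hρ0 _ ?_ z ?_
        · intro a ha b hb hab
          exact hSep a (hT'Λ a (Finset.mem_filter.mp (Finset.mem_coe.mp ha)).1) b
            (hT'Λ b (Finset.mem_filter.mp (Finset.mem_coe.mp hb)).1) hab
        · intro a ha
          have h3 := (Finset.mem_filter.mp ha).2
          push Not at h3
          have h4 : ‖a‖ ≤ ‖z - a‖ + ‖z‖ := by
            have := norm_sub_le z (z - a)
            simp only [sub_sub_cancel] at this
            linarith
          have h5 := le_max_left ρ0 0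
          linarith
  set DG : ℕ → E ι → ℝ := fun j z => G Λ (H j) (z + v j) - G Λ (H j) z with hDG
  set DS : ℕ → ℕ → E ι → ℝ := fun k j z => GS k j (z + v j) - GS k j z with hDS
  have cDG : ∀ j, Continuous (DG j) := fun j => by
    have := cG j
    rw [hDG]
    fun_prop
  have cDS : ∀ k j, Continuous (DS k j) := fun k j => by
    have := cGS k j
    rw [hDS]
    fun_prop
  set I : ℕ → ℕ → ℝ := fun k j =>
    ∫ τ, ‖aut (H j) τ‖ ^ 2 * ‖ee ⟪v j, τ⟫_ℝ - 1‖ ^ 2 * ‖P (S k) τ‖ ^ 2 with hI
  have iDS : ∀ k j, Integrable (fun z => DS k j z ^ 2) ∧ ∫ z, DS k j z ^ 2 = I k j := by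
    intro k j
    obtain ⟨⟨h1, -⟩, h2⟩ := hPL ι (H j) (hB j) (S k)
    refine ⟨?_, h2 (v j)⟩
    have h3 : Integrable (fun z => GS k j z ^ 2) := h1
    have h4 : Integrable (fun z => GS k j (z + v j) ^ 2) := h3.comp_add_right (v j)
    refine ((h4.const_mul 2).add (h3.const_mul 2)).mono'
      ((cDS k j).pow 2).aestronglyMeasurable (Eventually.of_forall fun z => ?_)
    rw [Real.norm_of_nonneg (sq_nonneg _)]
    simp only [Pi.add_apply, hDS]
    nlinarith [sq_nonneg (GS k j (z + v j) + GS k j z)]
  have core : ∀ (m : ℕ) (ε : ℝ), 0 < ε → ∃ z : E ι,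
      ∫ u in Metric.closedBall 0 (m : ℝ), ∑ j ∈ Finset.range (m + 1), DG j (z + u) ^ 2 ≤ ε := by
    intro m ε hε
    by_contra hcon
    push Not at hcon
    set Q := q ι m with hQ
    have hQ0 : 0 ≤ Q := qnn m
    set e2 : ℝ := ε / (4 * (Q + 1) * (m + 1)) with he2
    have he20 : 0 < e2 := by positivity
    have hsq : √e2 ^ 2 = e2 := Real.sq_sqrt he20.le
    choose ρj hρj0 hρj using fun j : ℕ => tail j (√e2) (Real.sqrt_pos.mpr he20)
    set ρ := ∑ j ∈ Finset.range (m + 1), ρj j with hρ
    set V := ∑ j ∈ Finset.range (m + 1), ‖v j‖ with hV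
    have hρle : ∀ j ∈ Finset.range (m + 1), ρj j ≤ ρ := fun j hj =>
      Finset.single_le_sum (fun i _ => hρj0 i) hj
    have hVle : ∀ j ∈ Finset.range (m + 1), ‖v j‖ ≤ V := fun j hj =>
      Finset.single_le_sum (f := fun j => ‖v j‖) (fun i _ => norm_nonneg (v i)) hj
    set W : E ι → ℝ := fun z => ∑ j ∈ Finset.range (m + 1), DG j z ^ 2 with hW
    have cW : Continuous W := continuous_finsetSum _ fun j _ => (cDG j).pow 2
    have nW : ∀ z, 0 ≤ W z := fun z => Finset.sum_nonneg fun _ _ => sq_nonneg _
    have mB : ∀ R : ℝ, MeasurableSet (Metric.closedBall (0 : E ι) R) := fun R =>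
      Metric.isClosed_closedBall.measurableSet
    have iB : ∀ {g : E ι → ℝ} (R : ℝ), Continuous g →
        IntegrableOn g (Metric.closedBall (0 : E ι) R) := fun R hg =>
      hg.continuousOn.integrableOn_compact (isCompact_closedBall _ _)
    -- the inequality for each `k`
    have hk : ∀ k : ℕ, ε * q ι (k + (-(ρ + V + m))) ≤
        Q * ∑ j ∈ Finset.range (m + 1), (2 * I k j + 2 * e2 * q ι (k + (-(ρ + V)))) := by
      intro k
      set R' : ℝ := k + (-(ρ + V)) with hR'
      set R : ℝ := k + (-(ρ + V + m)) with hR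
      have hRR : R + m = R' := by rw [hR, hR']; ring
      -- the integral over the large ball
      have s1 : ∫ z in Metric.closedBall 0 R', W z ≤
          ∑ j ∈ Finset.range (m + 1), (2 * I k j + 2 * e2 * q ι R') := by
        have s0 : ∫ z in Metric.closedBall 0 R', W z = ∑ j ∈ Finset.range (m + 1),
            ∫ z in Metric.closedBall 0 R', DG j z ^ 2 :=
          integral_finsetSum _ fun j _ => iB R' ((cDG j).pow 2)
        rw [s0]
        refine Finset.sum_le_sum fun j hj => ?_
        have h1 : ∫ z in Metric.closedBall 0 R', DG j z ^ 2 ≤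
            ∫ z in Metric.closedBall 0 R', (2 * DS k j z ^ 2 + 2 * e2) := by
          refine setIntegral_mono_on (iB R' ((cDG j).pow 2))
            (iB R' (by have := cDS k j; fun_prop)) (mB R') fun z hz => ?_
          rw [Metric.mem_closedBall, dist_zero_right] at hz
          have h2 := hρle j hj
          have h3 := hVle j hj
          have h4 := hρj j k z (by have := norm_nonneg (v j); linarith)
          have h5 := hρj j k (z + v j) (by
            have := norm_add_le z (v j)
            linarith)
          have h6 : |DG j z - DS k j z| ≤ √e2 := by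
            rw [abs_le]
            simp only [hDG, hDS]
            constructor <;> linarith [h4.1, h4.2, h5.1, h5.2]
          have h7 : (DG j z - DS k j z) ^ 2 ≤ e2 := by
            rw [← hsq, ← sq_abs (DG j z - DS k j z)]
            exact pow_le_pow_left₀ (abs_nonneg _) h6 2
          nlinarith [sq_nonneg (DG j z - 2 * DS k j z)]
        refine h1.trans ?_
        rw [integral_add (iB R' (by have := cDS k j; fun_prop)) (iB R' continuous_const),
          integral_const_mul, setIntegral_const]
        have h8 : ∫ z in Metric.closedBall 0 R', DS k j z ^ 2 ≤ I k j := by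
          rw [← (iDS k j).2]
          exact setIntegral_le_integral (iDS k j).1 (Eventually.of_forall fun z => sq_nonneg _)
        have h9 : (volume.real (Metric.closedBall (0 : E ι) R')) • (2 * e2) =
            2 * e2 * q ι R' := by
          rw [smul_eq_mul, mul_comm]
          rfl
        rw [h9]
        linarith
      have s2 : ∫⁻ z in Metric.closedBall (0 : E ι) R', ENNReal.ofReal (W z) =
          ENNReal.ofReal (∫ z in Metric.closedBall 0 R', W z) :=
        (ofReal_integral_eq_lintegral_ofReal (iB R' cW) (Eventually.of_forall nW)).symm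
      have s3 : ENNReal.ofReal ε * volume (Metric.closedBall (0 : E ι) R) ≤
          ∫⁻ z in Metric.closedBall (0 : E ι) R, ∫⁻ u in Metric.closedBall (0 : E ι) (m : ℝ),
            ENNReal.ofReal (W (z + u)) := by
        rw [← setLIntegral_const]
        refine lintegral_mono fun z => ?_
        have cz : Continuous fun u => W (z + u) := cW.comp (continuous_const.add continuous_id)
        rw [← ofReal_integral_eq_lintegral_ofReal (iB (m : ℝ) cz)
          (Eventually.of_forall fun u => nW _)]
        exact ENNReal.ofReal_le_ofReal (hcon z).le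
      have s4 : ∫⁻ z in Metric.closedBall (0 : E ι) R, ∫⁻ u in Metric.closedBall (0 : E ι) (m : ℝ),
            ENNReal.ofReal (W (z + u)) ≤
          volume (Metric.closedBall (0 : E ι) (m : ℝ)) *
            ∫⁻ z in Metric.closedBall (0 : E ι) R', ENNReal.ofReal (W z) := by
        rw [lintegral_lintegral_swap (by
          have : Measurable fun p : E ι × E ι => ENNReal.ofReal (W (p.1 + p.2)) :=
            (cW.comp (continuous_fst.add continuous_snd)).measurable.ennreal_ofReal
          exact this.aemeasurable)]
        calc ∫⁻ u in Metric.closedBall (0 : E ι) (m : ℝ), ∫⁻ z in Metric.closedBall (0 : E ι) R,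
              ENNReal.ofReal (W (z + u))
            ≤ ∫⁻ u in Metric.closedBall (0 : E ι) (m : ℝ),
              ∫⁻ z in Metric.closedBall (0 : E ι) R', ENNReal.ofReal (W z) := by
              refine setLIntegral_mono_ae' (mB _) (Eventually.of_forall fun u hu => ?_)
              rw [← lintegral_indicator (mB R), ← lintegral_indicator (mB R'),
                ← lintegral_add_right_eq_self
                  ((Metric.closedBall (0 : E ι) R').indicator fun z => ENNReal.ofReal (W z)) u]
              refine lintegral_mono fun z => ?_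
              by_cases hz : z ∈ Metric.closedBall (0 : E ι) R
              · have hz' : z + u ∈ Metric.closedBall (0 : E ι) R' := by
                  rw [Metric.mem_closedBall, dist_zero_right] at hz hu ⊢
                  have := norm_add_le z u
                  linarith
                rw [indicator_of_mem hz, indicator_of_mem hz']
              · rw [indicator_of_notMem hz]
                exact zero_le
          _ = _ := by
              rw [setLIntegral_const, mul_comm]
      have s5 : ENNReal.ofReal ε * volume (Metric.closedBall (0 : E ι) R) ≤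
          volume (Metric.closedBall (0 : E ι) (m : ℝ)) *
            ENNReal.ofReal (∑ j ∈ Finset.range (m + 1), (2 * I k j + 2 * e2 * q ι R')) := by
        refine (s3.trans s4).trans ?_
        rw [s2]
        gcongr
      have s6 := ENNReal.toReal_mono
        (ENNReal.mul_ne_top measure_closedBall_lt_top.ne ENNReal.ofReal_ne_top) s5
      rw [ENNReal.toReal_mul, ENNReal.toReal_mul, ENNReal.toReal_ofReal hε.le,
        ENNReal.toReal_ofReal ((integral_nonneg nW).trans s1)] at s6
      exact s6
    -- limits
    have hev : ∀ᶠ k : ℕ in (hyperfilter ℕ : Filter ℕ), 0 < k :=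
      (eventually_gt_atTop 0).filter_mono Nat.hyperfilter_le_atTop
    have l1 : Tendsto (fun k : ℕ => ε * (q ι (k + (-(ρ + V + m))) / q ι k))
        (hyperfilter ℕ : Filter ℕ) (𝓝 (ε * 1)) :=
      ((q_ratio _).mono_left Nat.hyperfilter_le_atTop).const_mul ε
    have l2 : Tendsto (fun k : ℕ => Q * ∑ j ∈ Finset.range (m + 1),
        (2 * ((1 / q ι k) * I k j) + 2 * e2 * (q ι (k + (-(ρ + V))) / q ι k)))
        (hyperfilter ℕ : Filter ℕ)
        (𝓝 (Q * ∑ j ∈ Finset.range (m + 1), (2 * 0 + 2 * e2 * 1))) := by
      refine Tendsto.const_mul _ (tendsto_finsetSum _ fun j _ => ?_)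
      exact ((hlim j).const_mul 2).add
        (((q_ratio _).mono_left Nat.hyperfilter_le_atTop).const_mul (2 * e2))
    have hle : ε * 1 ≤ Q * ∑ j ∈ Finset.range (m + 1), (2 * 0 + 2 * e2 * 1) := by
      refine le_of_tendsto_of_tendsto l1 l2 ?_
      filter_upwards [hev] with k hk0
      have hkR : (0 : ℝ) < k := by exact_mod_cast hk0
      have hq : 0 < q ι k := by
        rw [q_eq hkR.le]
        exact mul_pos (pow_pos hkR _) ball_pos
      have h19 := div_le_div_of_nonneg_right (hk k) hq.le
      have e1 : ε * (q ι (k + (-(ρ + V + m))) / q ι k) =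
          ε * q ι (k + (-(ρ + V + m))) / q ι k := by ring
      have e3 : Q * ∑ j ∈ Finset.range (m + 1),
          (2 * ((1 / q ι k) * I k j) + 2 * e2 * (q ι (k + (-(ρ + V))) / q ι k)) =
          Q * (∑ j ∈ Finset.range (m + 1), (2 * I k j + 2 * e2 * q ι (k + (-(ρ + V))))) /
            q ι k := by
        rw [mul_div_assoc, Finset.sum_div]
        congr 1
        refine Finset.sum_congr rfl fun j _ => ?_
        ring
      rw [e1, e3]
      exact h19
    have hfin : Q * ∑ j ∈ Finset.range (m + 1), (2 * 0 + 2 * e2 * 1) < ε := by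
      rw [Finset.sum_const, Finset.card_range, nsmul_eq_mul]
      push_cast
      have e4 : Q * (((m : ℝ) + 1) * (2 * 0 + 2 * e2 * 1)) = ε * (Q / (2 * (Q + 1))) := by
        rw [he2]
        field_simp
        ring
      rw [e4]
      have h20 : Q / (2 * (Q + 1)) < 1 := by
        rw [div_lt_one (by positivity)]
        linarith
      nlinarith
    linarith
  choose z hz using fun m : ℕ => core m (1 / ((m : ℝ) + 1)) (by positivity)
  refine ⟨z, fun j ρ => ?_⟩
  refine squeeze_zero' (g := fun m : ℕ => 1 / ((m : ℝ) + 1)) ?_ ?_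
    tendsto_one_div_add_atTop_nhds_zero_nat
  · exact Eventually.of_forall fun k => integral_nonneg fun u => sq_nonneg _
  · filter_upwards [eventually_ge_atTop j, eventually_ge_atTop ⌈ρ⌉₊] with m hm hm'
    have hρm : ρ ≤ m := (Nat.le_ceil _).trans (by exact_mod_cast hm')
    refine le_trans ?_ (hz m)
    have c1 : Continuous fun u => DG j (z m + u) ^ 2 := by
      have := cDG j
      fun_prop
    have c2 : Continuous fun u => ∑ j ∈ Finset.range (m + 1), DG j (z m + u) ^ 2 := by
      refine continuous_finsetSum _ fun i _ => ?_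
      have := cDG i
      fun_prop
    calc ∫ u in Metric.closedBall 0 ρ,
          (G Λ (H j) (z m + u + v j) - G Λ (H j) (z m + u)) ^ 2
        = ∫ u in Metric.closedBall 0 ρ, DG j (z m + u) ^ 2 := rfl
      _ ≤ ∫ u in Metric.closedBall 0 (m : ℝ), DG j (z m + u) ^ 2 :=
          setIntegral_mono_set (c1.continuousOn.integrableOn_compact (isCompact_closedBall _ _))
            (Eventually.of_forall fun u => sq_nonneg _)
            (Metric.closedBall_subset_closedBall hρm).eventuallyLE
      _ ≤ _ := by
          refine integral_mono (c1.continuousOn.integrableOn_compact (isCompact_closedBall _ _))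
            (c2.continuousOn.integrableOn_compact (isCompact_closedBall _ _)) fun u => ?_
          exact Finset.single_le_sum (f := fun j => DG j (z m + u) ^ 2)
            (fun i _ => sq_nonneg _) (Finset.mem_range.mpr (by omega))

end Pool.Agent.H62.SPX.SEL
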