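import Pool.Agent.Helper64.SPX.Spec

/-!
# SPX: part T4 (the atom at the origin)
-/

set_option autoImplicit false

open MeasureTheory Filter Topology Set
open scoped InnerProductSpace ENNReal FourierTransform

namespace Pool.Agent.H62.SPX.T4

open Pool.Agent.Helper64.SPX

variable {ι : Type} [Fintype ι]

theorem ft_eq (H : E ι → ℂ) (z : E ι) : ft H z = 𝓕 H z := by
  rw [Real.fourier_eq']
  unfold ft ee
  refine integral_congr_ae (Eventually.of_forall fun x => ?_)
  simp only [smul_eq_mul]
  rw [mul_comm, real_inner_comm]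
  congr 2
  push_cast
  ring

/-- the bump function -/
theorem exists_bump {δ : ℝ} (hδ : 0 < δ) : ∃ H : E ι → ℂ, Bdd H ∧ (∀ τ, ‖aut H τ‖ ≤ 1) ∧
    (∀ τ, δ ≤ ‖τ‖ → aut H τ = 0) ∧ Continuous (ft H) ∧ Integrable (fun z => ‖ft H z‖ ^ 2) ∧
    ∫ z, ‖ft H z‖ ^ 2 = 1 := by
  let φ : ContDiffBump (0 : E ι) := ⟨δ / 4, δ / 2, by positivity, by linarith⟩
  have cφ : Continuous φ := φ.continuous
  have sφ : HasCompactSupport φ := φ.hasCompactSupport
  have c2 : Continuous (fun x => φ x ^ 2) := by fun_prop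
  have s2 : HasCompactSupport (fun x => φ x ^ 2) := by
    have : (fun x => φ x ^ 2) = fun x => φ x * φ x := by funext x; ring
    rw [this]
    exact sφ.mul_left
  obtain ⟨I, hI⟩ : ∃ I, I = ∫ x, φ x ^ 2 := ⟨_, rfl⟩
  have hI0 : 0 < I := by
    rw [hI]
    refine c2.integral_pos_of_hasCompactSupport_nonneg_nonzero s2 (fun x => sq_nonneg _)
      (x := 0) ?_
    have : φ 0 = 1 := φ.one_of_mem_closedBall (Metric.mem_closedBall_self φ.rIn_pos.le)
    rw [this]
    norm_num
  have hsI : 0 < √I := Real.sqrt_pos.mpr hI0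
  set H : E ι → ℂ := fun x => (((√I)⁻¹ * φ x : ℝ) : ℂ) with hH
  have cH : Continuous H := by
    rw [hH]; fun_prop
  have nH : ∀ x, ‖H x‖ ^ 2 = φ x ^ 2 / I := by
    intro x
    rw [hH]
    simp only
    rw [Complex.norm_real, Real.norm_eq_abs, sq_abs, mul_pow, inv_pow, Real.sq_sqrt hI0.le]
    field_simp
  have smooth : ContDiff ℝ ((⊤ : ℕ∞) : WithTop ℕ∞) H := by
    have h1 : ContDiff ℝ ((⊤ : ℕ∞) : WithTop ℕ∞) (fun x => (√I)⁻¹ * φ x) :=
      contDiff_const.mul φ.contDiff
    exact Complex.ofRealCLM.contDiff.comp h1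
  have sH : HasCompactSupport H := by
    have h1 : HasCompactSupport (fun x => (√I)⁻¹ * φ x) := sφ.mul_left
    exact h1.comp_left (g := fun r : ℝ => (r : ℂ)) Complex.ofReal_zero
  set F := sH.toSchwartzMap smooth with hF
  have hFH : ∀ x, F x = H x := fun x => rfl
  have hFt : ∀ z, ft H z = (𝓕 F) z := by
    intro z
    rw [ft_eq, SchwartzMap.fourier_coe]
    rfl
  have iH2 : Integrable (fun x => ‖H x‖ ^ 2) := by
    have : (fun x => ‖H x‖ ^ 2) = fun x => φ x ^ 2 / I := funext nH
    rw [this]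
    exact (c2.integrable_of_hasCompactSupport s2).div_const I
  have vH2 : ∫ x, ‖H x‖ ^ 2 = 1 := by
    simp only [nH]
    rw [integral_div, ← hI]
    field_simp
  have zero_of : ∀ x, δ / 2 ≤ ‖x‖ → H x = 0 := by
    intro x hx
    have : φ x = 0 := φ.zero_of_le_dist (by rw [dist_zero_right]; exact hx)
    rw [hH]
    simp [this]
  refine ⟨H, ⟨cH.measurable, ?_, ⟨δ / 2, zero_of⟩⟩, ?_, ?_, ?_, ?_, ?_⟩
  · refine ⟨(√I)⁻¹, fun x => ?_⟩
    rw [hH]
    simp only
    rw [Complex.norm_real, Real.norm_eq_abs, abs_mul, abs_of_pos (inv_pos.mpr hsI),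
      abs_of_nonneg φ.nonneg]
    have := φ.le_one (x := x)
    have h2 := inv_pos.mpr hsI
    nlinarith
  · intro τ
    have iHτ : Integrable (fun x => ‖H (x + τ)‖ ^ 2) := iH2.comp_add_right τ
    have vHτ : ∫ x, ‖H (x + τ)‖ ^ 2 = 1 := by
      rw [← vH2]
      exact integral_add_right_eq_self (fun x => ‖H x‖ ^ 2) τ
    unfold aut
    calc ‖∫ x, H (x + τ) * (starRingEnd ℂ) (H x)‖
        ≤ ∫ x, (1 / 2 * ‖H (x + τ)‖ ^ 2 + 1 / 2 * ‖H x‖ ^ 2) := by
          refine norm_integral_le_of_norm_le ((iHτ.const_mul _).add (iH2.const_mul _))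
            (Eventually.of_forall fun x => ?_)
          rw [norm_mul, RCLike.norm_conj]
          nlinarith [sq_nonneg (‖H (x + τ)‖ - ‖H x‖)]
      _ = 1 := by
          rw [integral_add (iHτ.const_mul _) (iH2.const_mul _), integral_const_mul,
            integral_const_mul, vHτ, vH2]
          norm_num
  · intro τ hτ
    unfold aut
    rw [← integral_zero (E ι) ℂ]
    congr 1
    funext x
    by_cases h1 : δ / 2 ≤ ‖x‖
    · rw [zero_of x h1]; simp
    · have h2 : δ / 2 ≤ ‖x + τ‖ := by
        have h3 : ‖τ‖ ≤ ‖x + τ‖ + ‖x‖ := by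
          have := norm_sub_le (x + τ) x
          simpa using this
        push Not at h1
        linarith
      rw [zero_of _ h2]; simp
  · have : ft H = fun z => (𝓕 F) z := funext hFt
    rw [this]
    exact (𝓕 F).continuous
  · have h1 := (𝓕 F).memLp 2 volume
    have h2 := h1.integrable_norm_pow (by norm_num)
    simpa [hFt] using h2
  · simp only [hFt]
    rw [SchwartzMap.integral_norm_sq_fourier]
    exact vH2

/-- Cauchy–Schwarz on a set of finite measure -/
theorem cs {B : Set (E ι)} {G : E ι → ℝ} (hV : 0 < (volume B).toReal)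
    (iG : IntegrableOn G B) (iG2 : IntegrableOn (fun z => G z ^ 2) B) :
    (∫ z in B, G z) ^ 2 ≤ (volume B).toReal * ∫ z in B, G z ^ 2 := by
  have hfin : volume B ≠ ∞ := by
    intro h
    rw [h] at hV
    simp at hV
  set V := (volume B).toReal with hVd
  set m := (∫ z in B, G z) / V with hm
  have hc : IntegrableOn (fun _ : E ι => m ^ 2) B := integrableOn_const hfin
  have h1 : 0 ≤ ∫ z in B, (G z ^ 2 - 2 * m * G z + m ^ 2) := by
    refine integral_nonneg fun z => ?_
    simp only [Pi.zero_apply]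
    nlinarith [sq_nonneg (G z - m)]
  have i3 : IntegrableOn (fun z => G z ^ 2 - 2 * m * G z) B := iG2.sub (iG.const_mul (2 * m))
  have h2 : ∫ z in B, (G z ^ 2 - 2 * m * G z + m ^ 2) =
      (∫ z in B, G z ^ 2) - 2 * m * (∫ z in B, G z) + V * m ^ 2 := by
    rw [integral_add i3 hc, integral_sub iG2 (iG.const_mul (2 * m)), integral_const_mul,
      setIntegral_const]
    simp [hVd, Measure.real]
  rw [h2] at h1
  have h3 : (∫ z in B, G z) = m * V := by rw [hm]; field_simp
  rw [h3] at h1 ⊢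
  have h4 : (m * V) ^ 2 = V * (V * m ^ 2) := by ring
  rw [h4]
  refine mul_le_mul_of_nonneg_left ?_ hV.le
  linarith

/-- the volume of balls -/
theorem q_eq {R : ℝ} (hR : 0 ≤ R) :
    q ι R = R ^ (Module.finrank ℝ (E ι)) * (volume (Metric.ball (0 : E ι) 1)).toReal := by
  unfold q
  rw [Measure.addHaar_closedBall _ _ hR, ENNReal.toReal_mul, ENNReal.toReal_ofReal (by positivity)]

theorem ball_pos : 0 < (volume (Metric.ball (0 : E ι) 1)).toReal :=
  ENNReal.toReal_pos (Metric.measure_ball_pos volume _ one_pos).ne' measure_ball_lt_top.ne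

theorem q_ratio (ρ : ℝ) : Tendsto (fun k : ℕ => q ι (k + ρ) / q ι k) atTop (𝓝 1) := by
  have h1 : Tendsto (fun k : ℕ => (((k : ℝ) + ρ) / k) ^ (Module.finrank ℝ (E ι))) atTop
      (𝓝 (1 ^ (Module.finrank ℝ (E ι)))) := by
    refine Tendsto.pow ?_ _
    have h2 : Tendsto (fun k : ℕ => 1 + ρ / (k : ℝ)) atTop (𝓝 (1 + 0)) :=
      tendsto_const_nhds.add (tendsto_const_div_atTop_nhds_zero_nat ρ)
    rw [add_zero] at h2
    refine h2.congr' ?_
    filter_upwards [eventually_gt_atTop 0] with k hk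
    have : (k : ℝ) ≠ 0 := by exact_mod_cast hk.ne'
    field_simp
  rw [one_pow] at h1
  refine h1.congr' ?_
  filter_upwards [eventually_gt_atTop 0, eventually_ge_atTop ⌈|ρ|⌉₊] with k hk hk'
  have hkR : (0 : ℝ) < k := by exact_mod_cast hk
  have h3 : |ρ| ≤ k := (Nat.le_ceil _).trans (by exact_mod_cast hk')
  have h4 : 0 ≤ (k : ℝ) + ρ := by have := neg_abs_le ρ; linarith
  rw [q_eq h4, q_eq hkR.le, div_pow]
  have := ball_pos (ι := ι)
  field_simp

theorem main (hPL : S_PL) : S_T4 := by
  intro ι _ S D L f hS hD cf sf hf hL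
  have qnn : ∀ R, 0 ≤ q ι R := fun R => ENNReal.toReal_nonneg
  have cP : ∀ S : Finset (E ι), Continuous (P S) := by
    intro S
    unfold P ee
    fun_prop
  have ifP : ∀ k, Integrable (fun τ => f τ * ‖P (S k) τ‖ ^ 2) := by
    intro k
    refine Continuous.integrable_of_hasCompactSupport ?_ sf.mul_right
    have := cP (S k)
    fun_prop
  have nfP : ∀ k : ℕ, 0 ≤ (1 / q ι k) * ∫ τ, f τ * ‖P (S k) τ‖ ^ 2 := fun k =>
    mul_nonneg (one_div_nonneg.mpr (qnn _)) (integral_nonneg fun τ => mul_nonneg (hf τ)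
      (sq_nonneg _))
  have hL0 : 0 ≤ L := ge_of_tendsto' hL nfP
  rcases (hf 0).eq_or_lt with h0 | h0
  · rw [← h0, mul_zero]
    exact hL0
  -- the inequality with a loss
  have key : ∀ s : ℝ, 0 < s → s < 1 → D ^ 2 * ((1 - s) ^ 2 * ((1 - s) * f 0)) ≤ L := by
    intro s hs0 hs1
    set η := (1 - s) * f 0 with hη
    have hη0 : 0 < η := mul_pos (by linarith) h0
    have hηf : η < f 0 := by rw [hη]; nlinarith
    obtain ⟨δ, hδ, hδf⟩ : ∃ δ > 0, ∀ τ : E ι, ‖τ‖ < δ → η ≤ f τ := by
      have h1 : ∀ᶠ τ in 𝓝 (0 : E ι), η < f τ := (cf.tendsto 0).eventually (lt_mem_nhds hηf)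
      obtain ⟨δ, hδ, h2⟩ := Metric.eventually_nhds_iff.mp h1
      exact ⟨δ, hδ, fun τ hτ => (h2 (by rwa [dist_zero_right])).le⟩
    obtain ⟨H, bH, a1, a2, cH, iH, vH⟩ := exists_bump (ι := ι) hδ
    -- a large ball
    obtain ⟨ρ, hρ0, hρ⟩ : ∃ ρ : ℝ, 0 ≤ ρ ∧ 1 - s ≤ ∫ z in Metric.closedBall 0 ρ, ‖ft H z‖ ^ 2 := by
      have h1 : Tendsto (fun n : ℕ => ∫ z in Metric.closedBall (0 : E ι) n, ‖ft H z‖ ^ 2) atTop
          (𝓝 (∫ z in ⋃ n : ℕ, Metric.closedBall (0 : E ι) n, ‖ft H z‖ ^ 2)) := by
        refine tendsto_setIntegral_of_monotone (fun n => Metric.isClosed_closedBall.measurableSet)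
          (fun a b hab => Metric.closedBall_subset_closedBall (by exact_mod_cast hab))
          iH.integrableOn
      rw [Metric.iUnion_closedBall_nat, setIntegral_univ, vH] at h1
      have h2 := h1.eventually (lt_mem_nhds (by linarith : 1 - s < 1))
      obtain ⟨n, hn⟩ := h2.exists
      exact ⟨n, Nat.cast_nonneg n, hn.le⟩
    -- the inequality for each `k`
    have hk : ∀ k : ℕ, (((S k).card : ℝ) * (1 - s)) ^ 2 * η ≤
        q ι (k + ρ) * ∫ τ, f τ * ‖P (S k) τ‖ ^ 2 := by
      intro k
      obtain ⟨⟨iG2, vG2⟩, -⟩ := hPL ι H bH (S k)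
      have iGa : ∀ a : E ι, Integrable (fun z => ‖ft H (z - a)‖ ^ 2) := fun a =>
        iH.comp_sub_right a
      have iG : Integrable (fun z => ∑ a ∈ S k, ‖ft H (z - a)‖ ^ 2) :=
        integrable_finsetSum _ fun a _ => iGa a
      have hle : ∫ τ, ‖aut H τ‖ ^ 2 * ‖P (S k) τ‖ ^ 2 ≤
          (1 / η) * ∫ τ, f τ * ‖P (S k) τ‖ ^ 2 := by
        rw [← integral_const_mul]
        refine integral_mono_of_nonneg (Eventually.of_forall fun τ => by positivity)
          ((ifP k).const_mul _) (Eventually.of_forall fun τ => ?_)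
        simp only
        rcases lt_or_ge ‖τ‖ δ with h1 | h1
        · have h2 := hδf τ h1
          have h3 : ‖aut H τ‖ ^ 2 ≤ 1 := pow_le_one₀ (norm_nonneg _) (a1 τ)
          have h4 : 1 ≤ 1 / η * f τ := by
            rw [one_div, inv_mul_eq_div, le_div_iff₀ hη0]
            linarith
          calc ‖aut H τ‖ ^ 2 * ‖P (S k) τ‖ ^ 2 ≤ (1 / η * f τ) * ‖P (S k) τ‖ ^ 2 :=
                mul_le_mul_of_nonneg_right (h3.trans h4) (sq_nonneg _)
            _ = _ := by ring
        · rw [a2 τ h1]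
          have := hf τ
          simp only [norm_zero, ne_eq, OfNat.ofNat_ne_zero, not_false_eq_true, zero_pow, zero_mul]
          positivity
      rcases (Nat.eq_zero_or_pos (S k).card) with h5 | h5
      · rw [h5]
        simp only [Nat.cast_zero, zero_mul, ne_eq, OfNat.ofNat_ne_zero, not_false_eq_true,
          zero_pow]
        exact mul_nonneg (qnn _) (integral_nonneg fun τ => mul_nonneg (hf τ) (sq_nonneg _))
      -- mass in the ball
      have hmass : ((S k).card : ℝ) * (1 - s) ≤
          ∫ z in Metric.closedBall 0 ((k : ℝ) + ρ), ∑ a ∈ S k, ‖ft H (z - a)‖ ^ 2 := by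
        rw [integral_finsetSum _ fun a _ => (iGa a).integrableOn]
        have h6 : ∀ a ∈ S k, 1 - s ≤
            ∫ z in Metric.closedBall 0 ((k : ℝ) + ρ), ‖ft H (z - a)‖ ^ 2 := by
          intro a ha
          have hsub : Metric.closedBall a ρ ⊆ Metric.closedBall (0 : E ι) (k + ρ) := by
            intro z hz
            rw [Metric.mem_closedBall, dist_zero_right]
            rw [Metric.mem_closedBall, dist_eq_norm] at hz
            have h7 := hS k a ha
            have h8 : ‖z‖ ≤ ‖z - a‖ + ‖a‖ := by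
              have := norm_add_le (z - a) a
              simpa using this
            linarith
          have h9 : ∫ z in Metric.closedBall a ρ, ‖ft H (z - a)‖ ^ 2 =
              ∫ z in Metric.closedBall 0 ρ, ‖ft H z‖ ^ 2 := by
            rw [← integral_indicator Metric.isClosed_closedBall.measurableSet,
              ← integral_indicator Metric.isClosed_closedBall.measurableSet,
              ← integral_sub_right_eq_self
                ((Metric.closedBall (0 : E ι) ρ).indicator fun z => ‖ft H z‖ ^ 2) a]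
            congr 1
            funext z
            by_cases hz : z ∈ Metric.closedBall a ρ
            · have hz' : z - a ∈ Metric.closedBall (0 : E ι) ρ := by
                rw [Metric.mem_closedBall, dist_zero_right]
                rwa [Metric.mem_closedBall, dist_eq_norm] at hz
              rw [indicator_of_mem hz, indicator_of_mem hz']
            · have hz' : z - a ∉ Metric.closedBall (0 : E ι) ρ := by
                rw [Metric.mem_closedBall, dist_zero_right]
                rwa [Metric.mem_closedBall, dist_eq_norm] at hz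
              rw [indicator_of_notMem hz, indicator_of_notMem hz']
          calc 1 - s ≤ ∫ z in Metric.closedBall 0 ρ, ‖ft H z‖ ^ 2 := hρ
            _ = ∫ z in Metric.closedBall a ρ, ‖ft H (z - a)‖ ^ 2 := h9.symm
            _ ≤ _ := setIntegral_mono_set (iGa a).integrableOn
                (Eventually.of_forall fun z => sq_nonneg _) hsub.eventuallyLE
        calc ((S k).card : ℝ) * (1 - s) = ∑ a ∈ S k, (1 - s) := by
              rw [Finset.sum_const, nsmul_eq_mul]
          _ ≤ _ := Finset.sum_le_sum h6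
      have hVpos : 0 < (volume (Metric.closedBall (0 : E ι) (k + ρ))).toReal ∨
          (k : ℝ) + ρ = 0 := by
        rcases (add_nonneg (Nat.cast_nonneg k) hρ0 : 0 ≤ (k : ℝ) + ρ).eq_or_lt with h | h
        · exact Or.inr h.symm
        · exact Or.inl (ENNReal.toReal_pos (Metric.measure_closedBall_pos volume _ h).ne'
            measure_closedBall_lt_top.ne)
      have hfin2 : ((S k).card * (1 - s)) ^ 2 ≤ q ι (k + ρ) *
          ∫ z, (∑ a ∈ S k, ‖ft H (z - a)‖ ^ 2) ^ 2 := by
        rcases hVpos with hV | hV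
        · have h10 := cs (B := Metric.closedBall (0 : E ι) (k + ρ))
            (G := fun z => ∑ a ∈ S k, ‖ft H (z - a)‖ ^ 2) hV iG.integrableOn iG2.integrableOn
          have h11 : ∫ z in Metric.closedBall (0 : E ι) (k + ρ),
              (∑ a ∈ S k, ‖ft H (z - a)‖ ^ 2) ^ 2 ≤
              ∫ z, (∑ a ∈ S k, ‖ft H (z - a)‖ ^ 2) ^ 2 :=
            setIntegral_le_integral iG2 (Eventually.of_forall fun z => sq_nonneg _)
          have h12 : (((S k).card : ℝ) * (1 - s)) ^ 2 ≤
              (∫ z in Metric.closedBall 0 ((k : ℝ) + ρ), ∑ a ∈ S k, ‖ft H (z - a)‖ ^ 2) ^ 2 :=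
            pow_le_pow_left₀ (mul_nonneg (Nat.cast_nonneg _) (by linarith)) hmass 2
          refine h12.trans (h10.trans ?_)
          exact mul_le_mul_of_nonneg_left h11 ENNReal.toReal_nonneg
        · -- trivial dimension issues: the ball is a point
          have h13 : (0 : ℝ) < (S k).card * (1 - s) :=
            mul_pos (by exact_mod_cast h5) (by linarith)
          by_cases hV0 : 0 < (volume (Metric.closedBall (0 : E ι) (k + ρ))).toReal
          · have h10 := cs (B := Metric.closedBall (0 : E ι) (k + ρ))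
              (G := fun z => ∑ a ∈ S k, ‖ft H (z - a)‖ ^ 2) hV0 iG.integrableOn iG2.integrableOn
            have h11 : ∫ z in Metric.closedBall (0 : E ι) (k + ρ),
                (∑ a ∈ S k, ‖ft H (z - a)‖ ^ 2) ^ 2 ≤
                ∫ z, (∑ a ∈ S k, ‖ft H (z - a)‖ ^ 2) ^ 2 :=
              setIntegral_le_integral iG2 (Eventually.of_forall fun z => sq_nonneg _)
            have h12 : (((S k).card : ℝ) * (1 - s)) ^ 2 ≤
                (∫ z in Metric.closedBall 0 ((k : ℝ) + ρ), ∑ a ∈ S k, ‖ft H (z - a)‖ ^ 2) ^ 2 :=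
              pow_le_pow_left₀ h13.le hmass 2
            refine h12.trans (h10.trans ?_)
            exact mul_le_mul_of_nonneg_left h11 ENNReal.toReal_nonneg
          · exfalso
            have h14 : (volume (Metric.closedBall (0 : E ι) (k + ρ))).toReal = 0 :=
              le_antisymm (not_lt.mp hV0) ENNReal.toReal_nonneg
            have h15 : volume (Metric.closedBall (0 : E ι) (k + ρ)) = 0 := by
              rcases (ENNReal.toReal_eq_zero_iff _).mp h14 with h | h
              · exact h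
              · exact absurd h measure_closedBall_lt_top.ne
            rw [Measure.restrict_eq_zero.mpr h15] at hmass
            simp only [integral_zero_measure] at hmass
            linarith
      rw [vG2] at hfin2
      have h16 := mul_le_mul_of_nonneg_left hle (qnn ((k : ℝ) + ρ))
      have h17 := hfin2.trans h16
      have h18 : q ι (k + ρ) * ((1 / η) * ∫ τ, f τ * ‖P (S k) τ‖ ^ 2) =
          (q ι (k + ρ) * ∫ τ, f τ * ‖P (S k) τ‖ ^ 2) / η := by ring
      rw [h18, le_div_iff₀ hη0] at h17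
      exact h17
    -- the limit
    have hlim : Tendsto (fun k : ℕ => ((((S k).card : ℝ) / q ι k) * (1 - s)) ^ 2 * η)
        (hyperfilter ℕ : Filter ℕ) (𝓝 ((D * (1 - s)) ^ 2 * η)) :=
      ((hD.mul_const _).pow 2).mul_const _
    have hlim2 : Tendsto (fun k : ℕ => (q ι (k + ρ) / q ι k) *
        ((1 / q ι k) * ∫ τ, f τ * ‖P (S k) τ‖ ^ 2)) (hyperfilter ℕ : Filter ℕ) (𝓝 (1 * L)) :=
      ((q_ratio ρ).mono_left (Nat.hyperfilter_le_atTop)).mul hL
    have hle : (D * (1 - s)) ^ 2 * η ≤ 1 * L := by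
      refine le_of_tendsto_of_tendsto hlim hlim2 ?_
      have hev : ∀ᶠ k : ℕ in (hyperfilter ℕ : Filter ℕ), 0 < k :=
        (eventually_gt_atTop 0).filter_mono Nat.hyperfilter_le_atTop
      filter_upwards [hev] with k hk0
      have hkR : (0 : ℝ) < k := by exact_mod_cast hk0
      have hq : 0 < q ι k := by
        rw [q_eq hkR.le]
        exact mul_pos (pow_pos hkR _) ball_pos
      have h19 := hk k
      have e1 : (((S k).card : ℝ) / q ι k * (1 - s)) ^ 2 * η =
          ((((S k).card : ℝ) * (1 - s)) ^ 2 * η) / (q ι k) ^ 2 := by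
        field_simp
      have e2 : q ι (k + ρ) / q ι k * (1 / q ι k * ∫ τ, f τ * ‖P (S k) τ‖ ^ 2) =
          (q ι (k + ρ) * ∫ τ, f τ * ‖P (S k) τ‖ ^ 2) / (q ι k) ^ 2 := by
        field_simp
      rw [e1, e2]
      exact div_le_div_of_nonneg_right h19 (by positivity)
    calc D ^ 2 * ((1 - s) ^ 2 * η) = (D * (1 - s)) ^ 2 * η := by ring
      _ ≤ 1 * L := hle
      _ = L := one_mul L
  have hcont : Tendsto (fun s : ℝ => D ^ 2 * ((1 - s) ^ 2 * ((1 - s) * f 0))) (𝓝[>] 0)
      (𝓝 (D ^ 2 * ((1 - 0) ^ 2 * ((1 - 0) * f 0)))) := by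
    have : Continuous fun s : ℝ => D ^ 2 * ((1 - s) ^ 2 * ((1 - s) * f 0)) := by fun_prop
    exact (this.tendsto 0).mono_left nhdsWithin_le_nhds
  have hfinal := le_of_tendsto hcont (b := L) (by
    filter_upwards [Ioo_mem_nhdsGT (one_pos : (0 : ℝ) < 1)] with s hs
    exact key s hs.1 hs.2)
  simpa using hfinal

end Pool.Agent.H62.SPX.T4
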